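import Pool.Agent.Lib.MP_1ad17e_al_h17.S2a

/-!
MP_1ad17e_al, section 2, rows (2.6) - (2.11).
-/

set_option autoImplicit false

namespace E1adP

open Subgroup E1adH58 E1adH59
open scoped commutatorElement

variable {G : Type*} [Group G] [Finite G]

section S2

variable {n k : ℕ} {W : Subgroup G}

omit [Finite G] in
private theorem conj_YY {g y : G} (hy : y ∈ YY G k) : g * y * g⁻¹ ∈ YY G k := by
  obtain ⟨h1, h2, r, h3⟩ := hy
  refine ⟨?_, ?_, g * r * g⁻¹, ?_⟩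
  · calc g * y * g⁻¹ * (g * y * g⁻¹) = g * (y * y) * g⁻¹ := by group
      _ = 1 := by rw [h1]; group
  · intro h
    apply h2
    calc y = g⁻¹ * (g * y * g⁻¹) * g := by group
      _ = 1 := by rw [h]; group
  · rw [conj_pow, h3]

private theorem conj_Sg {g : G} (hg : g ∈ normalizer (W : Set G)) {y : G} (hy : y ∈ Sg k W) :
    g * y * g⁻¹ ∈ Sg k W := by
  obtain ⟨h1, h2, h3⟩ := hy
  rw [mem_normalizer_iff] at hg
  refine ⟨conj_YY h1, (hg y).1 h2, ?_⟩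
  intro w hw
  have hw' : g⁻¹ * w * g ∈ W := by
    rw [hg]
    have e : g * (g⁻¹ * w * g) * g⁻¹ = w := by group
    rwa [e]
  have h4 := h3 _ hw'
  calc g * y * g⁻¹ * w = g * (y * (g⁻¹ * w * g)) * g⁻¹ := by group
    _ = g * ((g⁻¹ * w * g) * y) * g⁻¹ := by rw [h4]
    _ = w * (g * y * g⁻¹) := by group

/-- `N` acts on `Σ` -/
theorem sg_conj {g : G} (hg : g ∈ normalizer (W : Set G)) {y : G} :
    y ∈ Sg k W ↔ g * y * g⁻¹ ∈ Sg k W := by
  refine ⟨conj_Sg hg, fun h => ?_⟩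
  have h1 := conj_Sg (inv_mem hg) h
  have e : g⁻¹ * (g * y * g⁻¹) * g⁻¹⁻¹ = y := by group
  rwa [e] at h1

omit [Finite G] in
private theorem conj_II {g : G} (hg : g ∈ normalizer (W : Set G)) {v : G} (hv : v ∈ II W) :
    g * v * g⁻¹ ∈ II W := by
  obtain ⟨h1, h2, h3⟩ := hv
  refine ⟨?_, mul_mem (mul_mem hg h2) (inv_mem hg), ?_⟩
  · calc g * v * g⁻¹ * (g * v * g⁻¹) = g * (v * v) * g⁻¹ := by group
      _ = 1 := by rw [h1]; group
  · intro h
    rw [mem_normalizer_iff] at hg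
    exact h3 ((hg v).2 h)

theorem ii_conj {g : G} (hg : g ∈ normalizer (W : Set G)) {v : G} :
    v ∈ II W ↔ g * v * g⁻¹ ∈ II W := by
  refine ⟨conj_II hg, fun h => ?_⟩
  have h1 := conj_II (inv_mem hg) h
  have e : g⁻¹ * (g * v * g⁻¹) * g⁻¹⁻¹ = v := by group
  rwa [e] at h1

omit [Finite G] in
private theorem conj_Cent {g y : G} {U : Subgroup G} (h : Cent y U) :
    Cent (g * y * g⁻¹) (cj g U) := by
  intro v hv hv2
  rw [mem_cj] at hv
  have h1 : (g⁻¹ * v * g) * (g⁻¹ * v * g) = 1 := by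
    calc (g⁻¹ * v * g) * (g⁻¹ * v * g) = g⁻¹ * (v * v) * g := by group
      _ = 1 := by rw [hv2]; group
  have h2 := h _ hv h1
  calc g * y * g⁻¹ * v = g * (y * (g⁻¹ * v * g)) * g⁻¹ := by group
    _ = g * ((g⁻¹ * v * g) * y) * g⁻¹ := by rw [h2]
    _ = v * (g * y * g⁻¹) := by group

omit [Finite G] in
private theorem cj_cj_inv (g : G) (U : Subgroup G) : cj g⁻¹ (cj g U) = U := by
  ext x
  rw [mem_cj, mem_cj]
  have e : g⁻¹ * (g⁻¹⁻¹ * x * g⁻¹) * g = x := by group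
  rw [e]

private theorem conj_Fx {g : G} (hg : g ∈ normalizer (W : Set G)) {U : Subgroup G} {y : G}
    (h : y ∈ Fx k W U) : g * y * g⁻¹ ∈ Fx k W (cj g U) :=
  ⟨conj_Sg hg h.1, conj_Cent h.2⟩

private theorem mem_Fx_cj {g : G} (hg : g ∈ normalizer (W : Set G)) {U : Subgroup G} {y : G} :
    y ∈ Fx k W (cj g U) ↔ g⁻¹ * y * g ∈ Fx k W U := by
  constructor
  · intro h
    have h1 := conj_Fx (inv_mem hg) h
    rw [cj_cj_inv, inv_inv] at h1
    exact h1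
  · intro h
    have h1 := conj_Fx hg h
    have e : g * (g⁻¹ * y * g) * g⁻¹ = y := by group
    rwa [e] at h1

private theorem maxTwo_cj {N U : Subgroup G} (hU : MaxTwo N U) {g : G} (hg : g ∈ N) :
    MaxTwo N (cj g U) := by
  refine maxTwo_of_card hU ?_ (isPGroup_cj hU.2.1) (card_cj g U).ge
  intro x hx
  rw [mem_cj] at hx
  have h1 := mul_mem (mul_mem hg (hU.1 hx)) (inv_mem hg)
  have e : g * (g⁻¹ * x * g) * g⁻¹ = x := by group
  rwa [e] at h1

/-- (2.6): conjugates of members of `FF` -/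
theorem s2_6a {F : Set G} (hF : F ∈ FF k W) {g : G} (hg : g ∈ normalizer (W : Set G)) :
    {y | g⁻¹ * y * g ∈ F} ∈ FF k W := by
  obtain ⟨U, hU, rfl⟩ := hF
  refine ⟨cj g U, maxTwo_cj hU hg, ?_⟩
  ext y
  exact (mem_Fx_cj hg).symm

/-- (2.6): transitivity -/
theorem s2_6b {F F' : Set G} (hF : F ∈ FF k W) (hF' : F' ∈ FF k W) :
    ∃ g ∈ normalizer (W : Set G), ∀ y, y ∈ F ↔ g * y * g⁻¹ ∈ F' := by
  obtain ⟨U, hU, rfl⟩ := hF
  obtain ⟨U', hU', rfl⟩ := hF'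
  obtain ⟨g, hg, rfl⟩ := maxTwo_conj' hU hU'
  refine ⟨g, hg, fun y => ?_⟩
  rw [mem_Fx_cj hg]
  have e : g⁻¹ * (g * y * g⁻¹) * g = y := by group
  rw [e]

theorem s2_6c {U : Subgroup G} (hU : MaxTwo (normalizer (W : Set G)) U) : U ≤ Stb W (Fx k W U) := by
  intro u hu
  have huN := hU.1 hu
  have hcj : cj u U = U := by
    ext x
    rw [mem_cj]
    constructor
    · intro h
      have h1 := mul_mem (mul_mem hu h) (inv_mem hu)
      have e : u * (u⁻¹ * x * u) * u⁻¹ = x := by group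
      rwa [e] at h1
    · intro h
      exact mul_mem (mul_mem (inv_mem hu) h) hu
  refine ⟨huN, fun y => ?_⟩
  have h1 := mem_Fx_cj (k := k) huN (U := U) (y := u * y * u⁻¹)
  rw [hcj] at h1
  have e : u⁻¹ * (u * y * u⁻¹) * u = y := by group
  rw [e] at h1
  exact h1.symm

/-- a maximal 2-subgroup of `N` above a 2-subgroup `E` of `Stb F` with the same set `F` -/
theorem s2_6d {F : Set G} (hF : F ∈ FF k W) {E : Subgroup G} (hE : IsPGroup 2 E)
    (hEF : E ≤ Stb W F) : ∃ U, MaxTwo (normalizer (W : Set G)) U ∧ Fx k W U = F ∧ E ≤ U := by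
  obtain ⟨U, hU, rfl⟩ := hF
  have h1 := s2_6c (k := k) hU
  have h2 : MaxTwo (Stb W (Fx k W U)) U :=
    ⟨h1, hU.2.1, fun E' hE' hE2 hUE => hU.2.2 E' (fun x hx => (hE' hx).1) hE2 hUE⟩
  obtain ⟨g, hg, hle⟩ := exists_cj_le h2 hEF hE
  refine ⟨cj g U, maxTwo_cj hU hg.1, ?_, hle⟩
  ext y
  rw [mem_Fx_cj hg.1, hg.2]
  have e : g * (g⁻¹ * y * g) * g⁻¹ = y := by group
  rw [e]

omit [Finite G] in
private theorem zpow_two {v : G} (hv : v * v = 1) : IsPGroup 2 (zpowers v) := by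
  rintro ⟨x, hx⟩
  obtain ⟨i, rfl⟩ := mem_zpowers_iff.1 hx
  refine ⟨1, ?_⟩
  apply Subtype.ext
  show (v ^ i) ^ (2 ^ 1) = 1
  rw [pow_one, ← zpow_natCast, ← zpow_mul, mul_comm, zpow_mul]
  have e : v ^ ((2 : ℕ) : ℤ) = 1 := by
    rw [zpow_natCast, pow_two, hv]
  rw [e, one_zpow]

private theorem exists_maxTwo_mem {v : G} (hv : v ∈ II W) :
    ∃ U, MaxTwo (normalizer (W : Set G)) U ∧ v ∈ U := by
  obtain ⟨U, hU, hle⟩ := maxTwo_exists (N := normalizer (W : Set G)) (E := zpowers v)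
    (by rw [zpowers_le]; exact hv.2.1) (zpow_two hv.1)
  exact ⟨U, hU, hle (mem_zpowers v)⟩

theorem s2_7 (hW : Bad k W) {v : G} (hv : v ∈ II W) {F : Set G} (hF : F ∈ FF k W) :
    v ∈ Stb W F ↔ Fi k W v = F := by
  constructor
  · intro h
    obtain ⟨U, hU, hUF, hle⟩ := s2_6d hF (E := zpowers v) (zpow_two hv.1) (by rwa [zpowers_le])
    rw [s2_5 hW hU hv (hle (mem_zpowers v)), hUF]
  · intro h
    obtain ⟨U, hU, hvU⟩ := exists_maxTwo_mem hv
    rw [← h, s2_5 hW hU hv hvU]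
    exact s2_6c hU hvU

omit [Finite G] in
private theorem ff_mem {U : Subgroup G} (hU : MaxTwo (normalizer (W : Set G)) U) :
    Fx k W U ∈ FF k W := ⟨U, hU, rfl⟩

theorem s2_8a {E : Subgroup G} (hE : IsPGroup 2 E) (hEN : E ≤ normalizer (W : Set G)) :
    ∃ F ∈ FF k W, E ≤ Stb W F := by
  obtain ⟨U, hU, hle⟩ := maxTwo_exists hEN hE
  exact ⟨_, ff_mem hU, hle.trans (s2_6c hU)⟩

theorem s2_8b (hW : Bad k W) {E : Subgroup G} (hWE : W ≤ E) {F F' : Set G} (hF : F ∈ FF k W)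
    (hF' : F' ∈ FF k W) (hEF : E ≤ Stb W F) (hEF' : E ≤ Stb W F') (hne : F ≠ F') : Om E = W := by
  apply le_antisymm
  · rw [Om_le_iff]
    intro v hv hv2
    by_contra hvW
    have hvI : v ∈ II W := ⟨hv2, (hEF hv).1, hvW⟩
    have h1 := (s2_7 hW hvI hF).1 (hEF hv)
    have h2 := (s2_7 hW hvI hF').1 (hEF' hv)
    exact hne (h1.symm.trans h2)
  · have h := Om_mono hWE
    rwa [bad_om hW] at h

theorem s2_9 (hcl : Cls G n) (hnk : n ≤ k) (hW : Bad k W) {X : Subgroup G} (hX : IsPGroup 2 X)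
    (hXN : X ≤ normalizer (W : Set G)) (hWX : W ≤ X) {y : G} (hy : y ∈ Sg k W)
    (hXy : ∀ x ∈ X, x * y = y * x) : ∃ F ∈ FF k W, X ≤ Stb W F ∧ y ∈ F := by
  obtain ⟨T, hT, hXT, r, hr, hry⟩ := s2_1 hy.1 hX hXy
  have hc : Cent y T := by
    have h := k5 hcl hnk hT.2.1 hr
    rwa [hry] at h
  obtain ⟨v, hvT, hvI⟩ := s2_4c hW hT (hWX.trans hXT)
  have h1 : IsPGroup 2 (T ⊓ normalizer (W : Set G) : Subgroup G) := hT.2.1.to_le inf_le_left
  obtain ⟨U, hU, hle⟩ := maxTwo_exists (N := normalizer (W : Set G)) inf_le_right h1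
  have hvU : v ∈ U := hle ⟨hvT, hvI.2.1⟩
  refine ⟨_, ff_mem hU, ?_, ?_⟩
  · exact (le_inf hXT hXN).trans (hle.trans (s2_6c hU))
  · rw [← s2_5 hW hU hvI hvU]
    exact ⟨hy, hc v hvT hvI.1⟩

omit [Finite G] in
private theorem Om_cent {S : Subgroup G} {y : G} (h : Cent y S) : ∀ v ∈ Om S, y * v = v * y := by
  have h1 : Om S ≤ centralizer {y} := by
    rw [Om_le_iff]
    intro v hv hv2
    rw [mem_centralizer_singleton_iff]
    exact (h v hv hv2).symm
  intro v hv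
  have := h1 hv
  rw [mem_centralizer_singleton_iff] at this
  exact this.symm

theorem s2_10 (hcl : Cls G n) (hnk : n ≤ k) (hW : Bad k W) :
    ∃ y ∈ Sg k W, ∃ F ∈ FF k W, y ∉ F := by
  have _ := hcl
  have _ := hnk
  obtain ⟨T, y, hT, hyY, hyT, hyc, hOm⟩ := hW.1
  have hWle : W ≤ T ⊓ centralizer {y} := by
    rw [← hOm]
    exact Om_le _
  have hyS : y ∈ Sg k W := by
    refine ⟨hyY, ?_, ?_⟩
    · rw [← hOm]
      refine mem_Om (mem_inf.2 ⟨hyT, ?_⟩) hyY.1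
      rw [mem_centralizer_singleton_iff]
    · intro w hw
      have h := (mem_inf.1 (hWle hw)).2
      rw [mem_centralizer_singleton_iff] at h
      exact h.symm
  obtain ⟨v, hvT, hvI, hne⟩ := s2_3b hW hT (hWle.trans inf_le_left) hyS hyc
  obtain ⟨U, hU, hvU⟩ := exists_maxTwo_mem hvI
  refine ⟨y, hyS, _, ff_mem hU, ?_⟩
  rw [← s2_5 hW hU hvI hvU]
  exact fun h => hne h.2

omit [Finite G] in
private theorem W_le_maxTwo (hW2 : IsPGroup 2 W) {U : Subgroup G}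
    (hU : MaxTwo (normalizer (W : Set G)) U) : W ≤ U := by
  have h1 : IsPGroup 2 (U ⊔ W : Subgroup G) := hU.2.1.to_sup_of_normal_right' hW2 hU.1
  have h2 := hU.2.2 (U ⊔ W) (sup_le hU.1 le_normalizer) h1 le_sup_left
  exact le_sup_right.trans h2

theorem s2_11 (hcl : Cls G n) (hnk : n ≤ k) (hW : Bad k W) {U T : Subgroup G}
    (hU : MaxTwo (normalizer (W : Set G)) U) (hT : MaxTwo ⊤ T) (hUT : U ≤ T) {y : G}
    (hy : y ∈ YY G k) (hyT : y ∈ T) (hc : Cent y T) : y ∈ Fx k W U := by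
  have _ := hT
  have _ := hyT
  have hWU := W_le_maxTwo (bad_pgroup hW) hU
  have hcW : ∀ w ∈ W, y * w = w * y := by
    intro w hw
    have h1 : Cent y W := fun v hv hv2 => hc v (hUT (hWU hv)) hv2
    rw [← bad_om hW] at hw
    exact Om_cent h1 w hw
  have hyN : y ∈ normalizer (W : Set G) := by
    rw [mem_normalizer_iff]
    have hcomm : ∀ w, y * w = w * y → y * w * y⁻¹ = w := by
      intro w h
      rw [h]
      group
    intro w
    constructor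
    · intro hw
      rw [hcomm w (hcW w hw)]
      exact hw
    · intro hw
      have h2 := hcW _ hw
      have h3 : y * w * y⁻¹ = w := by
        have h4 : w * y⁻¹ = y * w * y⁻¹ * y⁻¹ := by
          calc w * y⁻¹ = y⁻¹ * (y * (w * y⁻¹)) := by group
            _ = y⁻¹ * (y * w * y⁻¹) := by group
            _ = y⁻¹ * (y * (y * w * y⁻¹) * y⁻¹) := by rw [h2]; group
            _ = y * w * y⁻¹ * y⁻¹ := by group
        exact (mul_right_cancel h4).symm
      rwa [h3] at hw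
  have hyW : y ∈ W := by
    by_contra hyW
    have hyI : y ∈ II W := ⟨hy.1, hyN, hyW⟩
    obtain ⟨U', hU', hyU'⟩ := exists_maxTwo_mem hyI
    have h1 : Fx k W U' = Sg k W := by
      rw [← s2_5 hW hU' hyI hyU']
      ext z
      exact ⟨fun h => h.1, fun h => ⟨h, (hcW z h.2.1).symm⟩⟩
    obtain ⟨y1, hy1, F1, hF1, hn1⟩ := s2_10 hcl hnk hW
    obtain ⟨g, hg, h2⟩ := s2_6b hF1 (ff_mem hU' : Fx k W U' ∈ FF k W)
    rw [h2, h1] at hn1
    exact hn1 (conj_Sg hg hy1)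
  exact ⟨⟨hy, hyW, hcW⟩, fun v hv hv2 => hc v (hUT hv) hv2⟩

end S2

end E1adP
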